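import Mathlib
import Pool.Agent.Y876.DS.Tr

/-!
# Three and more primes at exact positions of Cunningham sequences of the first kind

Let `c_j(p) = 2 ^ j (p + 1) - 1` and let `E` be ANY set of `3560` times (for three primes), of `290687` times
(for four primes), or of `k` times with `log k ≥ 4 m + 29/50` (for `m + 1 ≥ 3` primes). For every `R` and every
large `x` there is a set `T ⊆ E` of at least `m + 1` times, with least element `t`, such that for at least
`x ^ (1 - ε)` primes `p ≤ x`, among the numbers `c_j(p)`, `1 ≤ j ≤ R`, exactly those with `t + j ∈ T` are prime,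
and `p` is not `c_j(q)` for any prime `q`, `1 ≤ j ≤ R`; and there is one such `T` which serves arbitrarily
large `x` for all `R` and `ε`.

The theorem on linear forms is from the starting files (`Pool.Agent.H358R5`, `Pool.Agent.Y876.DS`).
-/

set_option autoImplicit false

namespace Pool.Agent.Results.MP_77cbc6_nt.ThreeExactPositions

open Finset Filter
open Pool.Agent.TH779.Shat (tr mem_tr rpow_shift)
open Pool.Agent.Y876.DS (MHyp mhyp_log mhyp3560 trace_nat)

/-- the `j`-th term of the sequence of the first kind which starts with `p` -/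
def c (j p : ℕ) : ℕ := 2 ^ j * (p + 1) - 1

/-- The number of the primes `p ≤ x` such that, for all `1 ≤ j ≤ R`, the number `c j p` is prime if and
only if `t + j ∈ T`, and `p` is not `c j q` for any prime `q`. -/
noncomputable def count (t : ℕ) (T : Finset ℕ) (R : ℕ) (x : ℝ) : ℕ :=
  {p : ℕ | (p : ℝ) ≤ x ∧ p.Prime ∧ (∀ j ∈ Icc 1 R, ((c j p).Prime ↔ t + j ∈ T)) ∧
    ∀ j ∈ Icc 1 R, ∀ q : ℕ, q.Prime → c j q ≠ p}.ncard

theorem c_succ (j n : ℕ) : c j n + 1 = 2 ^ j * (n + 1) := by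
  unfold c
  have h1 : 1 ≤ 2 ^ j * (n + 1) := Nat.mul_pos (by positivity) (by omega)
  omega

theorem c_eq (j n : ℕ) : 2 ^ j * n + (2 ^ j - 1) = c j n := by
  have h1 := c_succ j n
  have h2 : 1 ≤ 2 ^ j := Nat.one_le_two_pow
  rw [mul_add, mul_one] at h1
  omega

theorem c_comp (i j n : ℕ) : c j (c i n) = c (i + j) n := by
  have h1 := c_succ i n
  have h2 := c_succ j (c i n)
  have h3 := c_succ (i + j) n
  rw [h1] at h2
  rw [pow_add] at h3
  have h4 : 2 ^ j * (2 ^ i * (n + 1)) = 2 ^ i * 2 ^ j * (n + 1) := by ring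
  omega

theorem c_inj (j : ℕ) {n n' : ℕ} (h : c j n = c j n') : n = n' := by
  have h1 := c_succ j n
  have h2 := c_succ j n'
  rw [h] at h1
  have h3 : 2 ^ j * (n + 1) = 2 ^ j * (n' + 1) := by rw [← h1, ← h2]
  have h4 := Nat.eq_of_mul_eq_mul_left (by positivity) h3
  omega

theorem count_mono (t : ℕ) (T : Finset ℕ) {R R' : ℕ} (hR : R ≤ R') {x y : ℝ} (hxy : x ≤ y) :
    count t T R' x ≤ count t T R y := by
  unfold count
  apply Set.ncard_le_ncard _ ((Set.finite_Iic ⌊y⌋₊).subset (fun q hq => Nat.le_floor hq.1))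
  rintro q ⟨h1, h2, h3, h4⟩
  refine ⟨h1.trans hxy, h2, fun j hj => h3 j ?_, fun j hj => h4 j ?_⟩
  all_goals
    rw [mem_Icc] at hj ⊢
    omega

/-- exact sets of prime terms -/
theorem pattern (m : ℕ) (E : Finset ℕ) (hyp : MHyp m E.card) (M : ℕ) (hM : ∀ e ∈ E, e < M)
    (η : ℝ) (hη : 0 < η) :
    ∀ᶠ x : ℝ in atTop, ∃ T ⊆ E, m + 1 ≤ T.card ∧ x ^ (1 - η) ≤
      ({n : ℕ | 1 ≤ n ∧ (n : ℝ) ≤ x ∧ ∀ j < M, ((c j n).Prime ↔ j ∈ T)}.ncard : ℝ) := by
  classical
  obtain ⟨S, hS⟩ : ∃ S : Finset (Fin M), S = (univ : Finset (Fin M)).filter (fun i : Fin M => i.val ∈ E) :=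
    ⟨_, rfl⟩
  have hcard : S.card = E.card := by
    rw [hS]
    apply Finset.card_bij (fun (i : Fin M) _ => (i : ℕ))
    · intro i hi
      exact (mem_filter.1 hi).2
    · intro i _ j _ h
      exact Fin.ext h
    · intro e he
      exact ⟨⟨e, hM e he⟩, mem_filter.2 ⟨mem_univ _, he⟩, rfl⟩
  have h := trace_nat (fun i : Fin M => 2 ^ (i : ℕ)) (fun i : Fin M => 2 ^ (i : ℕ) - 1)
    (fun i => Nat.one_le_two_pow) (by
      intro i j hij h
      have h1 : 1 ≤ 2 ^ (i : ℕ) := Nat.one_le_two_pow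
      have h2 : 1 ≤ 2 ^ (j : ℕ) := Nat.one_le_two_pow
      obtain ⟨u, hu⟩ : ∃ u : ℕ, 2 ^ (i : ℕ) = u + 1 := ⟨2 ^ (i : ℕ) - 1, by omega⟩
      obtain ⟨v, hv⟩ : ∃ v : ℕ, 2 ^ (j : ℕ) = v + 1 := ⟨2 ^ (j : ℕ) - 1, by omega⟩
      simp only [hu, hv, Nat.add_sub_cancel] at h
      have h3 : u = v := by nlinarith
      apply hij
      apply Fin.ext
      apply Nat.pow_right_injective (le_refl 2)
      show 2 ^ (i : ℕ) = 2 ^ (j : ℕ)
      rw [hu, hv, h3]) m S (by rw [hcard]; exact hyp) (by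
      intro p hp
      refine ⟨p - 1, fun i _ hd => ?_⟩
      have h1 := hp.two_le
      simp only [c_eq] at hd
      have h2 := c_succ (i : ℕ) (p - 1)
      rw [Nat.sub_add_cancel (by omega)] at h2
      have h3 : p ∣ c (i : ℕ) (p - 1) + 1 := by rw [h2]; exact dvd_mul_left _ _
      have h4 : p ∣ 1 := (Nat.dvd_add_right hd).1 h3
      exact hp.one_lt.ne' (Nat.dvd_one.1 h4)) η hη
  filter_upwards [h] with x hx
  obtain ⟨T, hT1, hT2, hT3⟩ := hx
  refine ⟨T.image (fun i : Fin M => (i : ℕ)), ?_, ?_, hT3.trans ?_⟩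
  · intro e he
    obtain ⟨i, hi, rfl⟩ := mem_image.1 he
    have h1 := hT1 hi
    rw [hS] at h1
    exact (mem_filter.1 h1).2
  · rw [card_image_of_injective _ Fin.val_injective]
    exact hT2
  · rw [Nat.cast_le]
    apply Set.ncard_le_ncard
    · rintro n ⟨h1, h3, h4⟩
      refine ⟨h1, h3, fun j hj => ?_⟩
      have h5 := mem_tr (fun i : Fin M => 2 ^ (i : ℕ)) (fun i : Fin M => 2 ^ (i : ℕ) - 1) n ⟨j, hj⟩
      simp only [c_eq] at h5
      rw [← h5, h4]
      constructor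
      · intro h6
        exact mem_image.2 ⟨_, h6, rfl⟩
      · intro h6
        obtain ⟨i, hi, hij⟩ := mem_image.1 h6
        have h7 : i = ⟨j, hj⟩ := Fin.ext hij
        rwa [← h7]
    · apply (Set.finite_Iic ⌊x⌋₊).subset
      rintro n ⟨_, h3, _⟩
      exact Nat.le_floor h3

/-- from the integers `n` to the first prime of the pattern -/
theorem transfer (T : Finset ℕ) (t R M : ℕ) (ht : t ∈ T) (hR : R ≤ t) (hM : t + R < M)
    (hmin : ∀ e ∈ T, t ≤ e) (x : ℝ) :
    {n : ℕ | 1 ≤ n ∧ (n : ℝ) ≤ x ∧ ∀ j < M, ((c j n).Prime ↔ j ∈ T)}.ncard ≤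
      count t T R (2 ^ (t + 1) * x) := by
  unfold count
  refine Set.ncard_le_ncard_of_injOn (fun n => c t n) ?_ ?_
    ((Set.finite_Iic ⌊2 ^ (t + 1) * x⌋₊).subset (fun q hq => Nat.le_floor hq.1))
  · rintro n ⟨h1, h2, h3⟩
    refine ⟨?_, (h3 t (by omega)).2 ht, fun j hj => ?_, fun j hj q hq hcon => ?_⟩
    · have h4 : ((c t n : ℕ) : ℝ) + 1 = 2 ^ t * ((n : ℝ) + 1) := by exact_mod_cast c_succ t n
      have h5 : (1 : ℝ) ≤ n := by exact_mod_cast h1
      have h6 : (0 : ℝ) < 2 ^ t := by positivity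
      have h7 : (2 : ℝ) ^ t * ((n : ℝ) + 1) ≤ 2 ^ t * (2 * x) :=
        mul_le_mul_of_nonneg_left (by linarith) h6.le
      show ((c t n : ℕ) : ℝ) ≤ 2 ^ (t + 1) * x
      rw [pow_succ]
      linarith
    · rw [mem_Icc] at hj
      show (c j (c t n)).Prime ↔ t + j ∈ T
      rw [c_comp]
      exact h3 (t + j) (by omega)
    · rw [mem_Icc] at hj
      have h4 : c j (c (t - j) n) = c j q := by
        rw [c_comp, Nat.sub_add_cancel (by omega)]
        exact hcon.symm
      have h5 := c_inj j h4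
      have h6 := (h3 (t - j) (by omega)).1 (by rw [h5]; exact hq)
      have h7 := hmin _ h6
      omega
  · intro n _ n' _ h
    exact c_inj t h

/-- at every large `x` there is a pattern for the primes up to `x` -/
theorem every_scale (m : ℕ) (E : Finset ℕ) (hyp : MHyp m E.card) (R : ℕ) (ε : ℝ) (hε : 0 < ε) :
    ∀ᶠ x : ℝ in atTop, ∃ T ⊆ E, m + 1 ≤ T.card ∧ ∃ t ∈ T, (∀ e ∈ T, t ≤ e) ∧
      x ^ (1 - ε) ≤ (count t T R x : ℝ) := by
  classical
  obtain ⟨J, hJ⟩ : ∃ J : ℕ, ∀ e ∈ E, e ≤ J := ⟨E.sup id, fun e he => Finset.le_sup (f := id) he⟩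
  have h1 := pattern m (E.map (addRightEmbedding R)) (by rw [card_map]; exact hyp) (J + 2 * R + 1)
    (by
      intro e he
      obtain ⟨e', he', rfl⟩ := Finset.mem_map.1 he
      have h2 := hJ e' he'
      show e' + R < _
      omega) (ε / 2) (by positivity)
  have hD : (1 : ℝ) ≤ 2 ^ (J + R + 1) := one_le_pow₀ (by norm_num)
  have hD0 : (0 : ℝ) < 2 ^ (J + R + 1) := by positivity
  have ht : Tendsto (fun x : ℝ => (x - 0) / 2 ^ (J + R + 1)) atTop atTop :=
    (tendsto_atTop_add_const_right _ _ tendsto_id).atTop_div_const hD0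
  filter_upwards [ht.eventually h1, rpow_shift 1 0 (2 ^ (J + R + 1)) hD le_rfl zero_le_one ε hε,
    eventually_ge_atTop (0 : ℝ)] with x hx hx2 hx0
  rw [one_mul] at hx2
  obtain ⟨T, hTS, hT2, hT⟩ := hx
  have hne : T.Nonempty := card_pos.1 (by omega)
  have hsh : ∀ e ∈ T, ∃ e' ∈ E, e' + R = e := by
    intro e he
    obtain ⟨e', he', hee⟩ := Finset.mem_map.1 (hTS he)
    exact ⟨e', he', hee⟩
  obtain ⟨t', ht', htt⟩ := hsh _ (T.min'_mem hne)
  have htJ := hJ t' ht'
  have h3 := transfer T (T.min' hne) R (J + 2 * R + 1) (T.min'_mem hne) (by omega) (by omega)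
    (fun e he => T.min'_le e he) ((x - 0) / 2 ^ (J + R + 1))
  have h4 : (2 : ℝ) ^ (T.min' hne + 1) * ((x - 0) / 2 ^ (J + R + 1)) ≤ x := by
    rw [sub_zero, ← mul_div_assoc, div_le_iff₀ hD0, mul_comm x]
    exact mul_le_mul_of_nonneg_right (pow_le_pow_right₀ (by norm_num) (by omega)) hx0
  have h5 := h3.trans (count_mono (T.min' hne) T (le_refl R) h4)
  refine ⟨T.image (fun e => e - R), ?_, ?_, T.min' hne - R, mem_image_of_mem _ (T.min'_mem hne), ?_, ?_⟩
  · intro e he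
    obtain ⟨e1, he1, rfl⟩ := mem_image.1 he
    obtain ⟨e', he', hee⟩ := hsh e1 he1
    have : e1 - R = e' := by omega
    rwa [this]
  · rw [card_image_of_injOn]
    · exact hT2
    · intro e1 he1 e2 he2 he
      obtain ⟨e1', _, hee1⟩ := hsh e1 he1
      obtain ⟨e2', _, hee2⟩ := hsh e2 he2
      have he' : e1 - R = e2 - R := he
      omega
  · intro e he
    obtain ⟨e1, he1, rfl⟩ := mem_image.1 he
    have := T.min'_le e1 he1
    omega
  · have h6 : ∀ j, T.min' hne - R + j ∈ T.image (fun e => e - R) ↔ T.min' hne + j ∈ T := by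
      intro j
      constructor
      · intro h6
        obtain ⟨e1, he1, hee⟩ := mem_image.1 h6
        obtain ⟨e', _, hee'⟩ := hsh e1 he1
        have : e1 = T.min' hne + j := by omega
        rwa [← this]
      · intro h6
        exact mem_image.2 ⟨_, h6, by omega⟩
    have h7 : count (T.min' hne - R) (T.image (fun e => e - R)) R x = count (T.min' hne) T R x := by
      unfold count
      simp only [h6]
    rw [h7]
    exact hx2.trans (hT.trans (by exact_mod_cast h5))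

/-- one pattern for all `R` and `ε` -/
theorem one_pattern (m : ℕ) (E : Finset ℕ) (hyp : MHyp m E.card) :
    ∃ T ⊆ E, m + 1 ≤ T.card ∧ ∃ t ∈ T, (∀ e ∈ T, t ≤ e) ∧ ∀ R : ℕ, ∀ ε : ℝ, 0 < ε →
      ∃ᶠ x : ℝ in atTop, x ^ (1 - ε) ≤ (count t T R x : ℝ) := by
  classical
  by_contra hcon
  push Not at hcon
  have h3 : ∀ P : Finset ℕ × ℕ, ∃ (R : ℕ) (ε : ℝ), 0 < ε ∧ (P.1 ⊆ E → m + 1 ≤ P.1.card →
      P.2 ∈ P.1 → (∀ e ∈ P.1, P.2 ≤ e) →
      ∀ᶠ x : ℝ in atTop, (count P.2 P.1 R x : ℝ) < x ^ (1 - ε)) := by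
    intro P
    by_cases hP : P.1 ⊆ E ∧ m + 1 ≤ P.1.card ∧ P.2 ∈ P.1 ∧ ∀ e ∈ P.1, P.2 ≤ e
    · obtain ⟨R, ε, hε, h⟩ := hcon P.1 hP.1 hP.2.1 P.2 hP.2.2.1 hP.2.2.2
      refine ⟨R, ε, hε, fun _ _ _ _ => ?_⟩
      filter_upwards [h] with x hx using hx
    · exact ⟨0, 1, one_pos, fun h h' h'' h''' => absurd ⟨h, h', h'', h'''⟩ hP⟩
  choose Rf ef he hf using h3
  obtain ⟨A, hA⟩ : ∃ A : Finset (Finset ℕ × ℕ), A = E.powerset ×ˢ E := ⟨_, rfl⟩
  by_cases hAne : A.Nonempty
  swap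
  · obtain ⟨x, T, hTE, hT, t, ht, -⟩ := (every_scale m E hyp 0 1 one_pos).exists
    exact hAne ⟨(T, t), by rw [hA]; exact mem_product.2 ⟨mem_powerset.2 hTE, hTE ht⟩⟩
  obtain ⟨P0, hP0, hmin⟩ := Finset.exists_min_image A ef hAne
  have hcore := every_scale m E hyp (A.sup Rf) (ef P0) (he P0)
  have hall : ∀ᶠ x : ℝ in atTop, ∀ P ∈ A, P.1 ⊆ E → m + 1 ≤ P.1.card → P.2 ∈ P.1 →
      (∀ e ∈ P.1, P.2 ≤ e) → (count P.2 P.1 (Rf P) x : ℝ) < x ^ (1 - ef P) := by
    rw [Filter.eventually_all_finset]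
    intro P _
    by_cases hP : P.1 ⊆ E ∧ m + 1 ≤ P.1.card ∧ P.2 ∈ P.1 ∧ ∀ e ∈ P.1, P.2 ≤ e
    · filter_upwards [hf P hP.1 hP.2.1 hP.2.2.1 hP.2.2.2] with x hx _ _ _ _ using hx
    · exact Filter.Eventually.of_forall fun x h h' h'' h''' => absurd ⟨h, h', h'', h'''⟩ hP
  obtain ⟨x, hx1, hx2, hx3⟩ := (hcore.and (hall.and (eventually_ge_atTop (1 : ℝ)))).exists
  obtain ⟨T, hTE, hT, t, ht, htm, hTx⟩ := hx1
  have hPA : (T, t) ∈ A := by rw [hA]; exact mem_product.2 ⟨mem_powerset.2 hTE, hTE ht⟩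
  have h4 := hx2 (T, t) hPA hTE hT ht htm
  have h5 : (count t T (A.sup Rf) x : ℝ) ≤ (count t T (Rf (T, t)) x : ℝ) := by
    exact_mod_cast count_mono t T (Finset.le_sup (f := Rf) hPA) (le_refl x)
  have h7 : x ^ (1 - ef (T, t)) ≤ x ^ (1 - ef P0) :=
    Real.rpow_le_rpow_of_exponent_le hx3 (by linarith [hmin (T, t) hPA])
  simp only at h4
  linarith

/-- a number `k` of times which suffices for `m + 1` primes -/
def Enough (m k : ℕ) : Prop :=
  (m = 2 ∧ 3560 ≤ k) ∨ (m = 3 ∧ 290687 ≤ k) ∨ (2 ≤ m ∧ 4 * (m : ℝ) + 29 / 50 ≤ Real.log k)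

theorem mhyp_enough {m k : ℕ} (h : Enough m k) : MHyp m k := by
  rcases h with ⟨rfl, h⟩ | ⟨rfl, h⟩ | ⟨h2, h⟩
  · exact mhyp3560.mono h
  · refine MHyp.mono (mhyp_log 3 290687 (by norm_num) ?_) h
    have := Pool.Agent.H358R5.LOG_proof.2
    push_cast
    exact this
  · exact mhyp_log m k h2 h

/-- `H` is the set of the positions of the first `|H|` primes after `p` in its sequence, and `p` is not
preceded by a prime, often -/
def Next (H : Finset ℕ) : Prop :=
  ∀ R : ℕ, ∀ ε : ℝ, 0 < ε → ∃ᶠ x : ℝ in atTop, x ^ (1 - ε) ≤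
    ({p : ℕ | (p : ℝ) ≤ x ∧ p.Prime ∧ (∀ h ∈ H, ∀ l ∈ Icc 1 h, ((c l p).Prime ↔ l ∈ H)) ∧
      ∀ l ∈ Icc 1 R, ∀ q : ℕ, q.Prime → c l q ≠ p}.ncard : ℝ)

/-- initial segments -/
theorem initial (S : Finset ℕ) (m : ℕ) (hm : m ≤ S.card) :
    ∃ H ⊆ S, H.card = m ∧ ∀ h ∈ H, ∀ l ∈ S, l ≤ h → l ∈ H := by
  classical
  obtain ⟨f, hf⟩ : ∃ f : Fin S.card ↪o ℕ, f = S.orderEmbOfFin rfl := ⟨_, rfl⟩
  refine ⟨(univ : Finset (Fin m)).image (fun i => f (Fin.castLE hm i)), ?_, ?_, ?_⟩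
  · intro e he
    obtain ⟨i, -, rfl⟩ := mem_image.1 he
    rw [hf]
    exact S.orderEmbOfFin_mem rfl _
  · rw [card_image_of_injective, card_univ, Fintype.card_fin]
    intro i j hij
    exact Fin.castLE_injective hm (f.injective hij)
  · intro h hh l hl hlh
    obtain ⟨i, -, rfl⟩ := mem_image.1 hh
    have h1 : l ∈ Set.range f := by
      rw [hf, S.range_orderEmbOfFin]
      exact hl
    obtain ⟨j, rfl⟩ := h1
    have h2 : j ≤ Fin.castLE hm i := f.le_iff_le.1 hlh
    have h3 : (j : ℕ) < m := lt_of_le_of_lt (Fin.le_def.1 h2) i.isLt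
    exact mem_image.2 ⟨⟨j, h3⟩, mem_univ _, rfl⟩

theorem next_of (m : ℕ) (E : Finset ℕ) (hyp : MHyp m E.card) :
    ∃ (a : ℕ) (H : Finset ℕ), a ∈ E ∧ H.card = m ∧ (∀ h ∈ H, 0 < h ∧ a + h ∈ E) ∧ Next H := by
  classical
  obtain ⟨T, hTE, hT, t, ht, htm, h⟩ := one_pattern m E hyp
  obtain ⟨H₁, hH1, hHm, hini⟩ := initial (T.erase t) m (by rw [card_erase_of_mem ht]; omega)
  have hlt : ∀ e ∈ H₁, t < e ∧ e ∈ T := by
    intro e he
    obtain ⟨h1, h2⟩ := mem_erase.1 (hH1 he)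
    exact ⟨lt_of_le_of_ne (htm e h2) (Ne.symm h1), h2⟩
  refine ⟨t, H₁.image (fun e => e - t), hTE ht, ?_, ?_, ?_⟩
  · rw [card_image_of_injOn, hHm]
    intro e he e' he' hee
    have h1 := (hlt e he).1
    have h2 := (hlt e' he').1
    have h3 : e - t = e' - t := hee
    omega
  · intro h hh
    obtain ⟨e, he, rfl⟩ := mem_image.1 hh
    have h1 := hlt e he
    have h2 : t + (e - t) = e := by omega
    rw [h2]
    exact ⟨by omega, hTE h1.2⟩
  · intro R ε hε
    refine (h (R + T.sup id) ε hε).mono fun x hx => hx.trans ?_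
    rw [Nat.cast_le]
    unfold count
    apply Set.ncard_le_ncard _ ((Set.finite_Iic ⌊x⌋₊).subset (fun q hq => Nat.le_floor hq.1))
    rintro p ⟨h3, h4, h5, h6⟩
    refine ⟨h3, h4, fun h hh l hl => ?_, fun l hl => h6 l ?_⟩
    · obtain ⟨e, he, rfl⟩ := mem_image.1 hh
      have h7 := hlt e he
      have h8 : e ≤ T.sup id := Finset.le_sup (f := id) h7.2
      rw [mem_Icc] at hl
      rw [h5 l (mem_Icc.2 ⟨hl.1, by omega⟩)]
      constructor
      · intro h9
        exact mem_image.2 ⟨t + l, hini e he (t + l) (mem_erase.2 ⟨by omega, h9⟩) (by omega), by omega⟩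
      · intro h9
        obtain ⟨e', he', hel⟩ := mem_image.1 h9
        have h10 := hlt e' he'
        have h11 : t + l = e' := by omega
        rw [h11]
        exact h10.2
    · rw [mem_Icc] at hl ⊢
      omega

theorem card_supersets (S0 T : Finset ℕ) (m : ℕ) (hT : T ⊆ S0) :
    ((S0.powersetCard m).filter (fun S => T ⊆ S)).card ≤ (S0.card - T.card).choose (m - T.card) := by
  classical
  rw [← card_sdiff_of_subset hT, ← card_powersetCard]
  apply card_le_card_of_injOn (fun S => S \ T)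
  · intro S hS
    rw [mem_coe, mem_filter, mem_powersetCard] at hS
    rw [mem_coe, mem_powersetCard]
    refine ⟨sdiff_subset_sdiff hS.1.1 (subset_refl T), ?_⟩
    rw [card_sdiff_of_subset hS.2, hS.1.2]
  · intro S hS S' hS' h
    rw [mem_coe, mem_filter, mem_powersetCard] at hS hS'
    beta_reduce at h
    rw [← sdiff_union_of_subset hS.2, h, sdiff_union_of_subset hS'.2]

theorem card_tau (a : ℕ) (H : Finset ℕ) (hH : ∀ h ∈ H, 0 < h) :
    (insert a (H.image (fun h => a + h))).card = H.card + 1 := by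
  rw [card_insert_of_notMem, card_image_of_injective]
  · intro x y hxy
    have : a + x = a + y := hxy
    omega
  · intro hcon
    obtain ⟨h, hh, he⟩ := mem_image.1 hcon
    have := hH h hh
    omega

open Classical in
/-- averaging over the sets of times -/
theorem average (P : Finset ℕ → Prop) (m K N : ℕ) (hK : K ≤ N + 1)
    (hP : ∀ E : Finset ℕ, E.card = K → ∃ (a : ℕ) (H : Finset ℕ), a ∈ E ∧ H.card = m ∧
      (∀ h ∈ H, 0 < h ∧ a + h ∈ E) ∧ P H) :
    N.choose m ≤ (m + 1) * K.choose (m + 1) * (((Icc 1 N).powersetCard m).filter P).card := by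
  obtain ⟨A, hA⟩ : ∃ A : Finset (Finset ℕ), A = ((Icc 1 N).powersetCard m).filter P := ⟨_, rfl⟩
  rw [← hA]
  have hAm : ∀ H ∈ A, H ⊆ Icc 1 N ∧ H.card = m ∧ P H := by
    intro H hH
    rw [hA, mem_filter, mem_powersetCard] at hH
    exact ⟨hH.1.1, hH.1.2, hH.2⟩
  have hmK : m + 1 ≤ K := by
    obtain ⟨a, H, ha, hH, hm, -⟩ := hP (range K) (card_range K)
    have h1 := card_tau a H (fun h hh => (hm h hh).1)
    have h2 : insert a (H.image (fun h => a + h)) ⊆ range K := by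
      intro y hy
      rcases mem_insert.1 hy with rfl | hy
      · exact ha
      · obtain ⟨h, hh, rfl⟩ := mem_image.1 hy
        exact (hm h hh).2
    have h3 := card_le_card h2
    rw [h1, hH, card_range] at h3
    exact h3
  have h1 : (N + 1).choose K ≤ ((N + 1) * A.card) * (N + 1 - (m + 1)).choose (K - (m + 1)) := by
    have h2 : (range (N + 1)).powersetCard K ⊆ ((range (N + 1)) ×ˢ A).biUnion (fun z =>
        ((range (N + 1)).powersetCard K).filter
          (fun S => insert z.1 (z.2.image (fun h => z.1 + h)) ⊆ S)) := by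
      intro S hS
      have hS' := mem_powersetCard.1 hS
      obtain ⟨a, H, ha, hH, hm, hPH⟩ := hP S hS'.2
      rw [mem_biUnion]
      refine ⟨(a, H), ?_, mem_filter.2 ⟨hS, ?_⟩⟩
      · rw [mem_product]
        refine ⟨hS'.1 ha, ?_⟩
        rw [hA, mem_filter, mem_powersetCard]
        refine ⟨⟨fun h hh => ?_, hH⟩, hPH⟩
        have h3 := mem_range.1 (hS'.1 (hm h hh).2)
        have h4 := (hm h hh).1
        rw [mem_Icc]
        omega
      · intro y hy
        rcases mem_insert.1 hy with rfl | hy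
        · exact ha
        · obtain ⟨h, hh, rfl⟩ := mem_image.1 hy
          exact (hm h hh).2
    have h3 := card_le_card h2
    rw [card_powersetCard, card_range] at h3
    refine h3.trans ?_
    have h4 : ((range (N + 1)) ×ˢ A).card = (N + 1) * A.card := by rw [card_product, card_range]
    rw [← h4]
    refine card_biUnion_le_card_mul _ _ _ fun z hz => ?_
    obtain ⟨hz1, hz2⟩ := mem_product.1 hz
    obtain ⟨g1, g2, g3⟩ := hAm z.2 hz2
    by_cases hsub : insert z.1 (z.2.image (fun h => z.1 + h)) ⊆ range (N + 1)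
    · have h5 := card_supersets (range (N + 1)) _ K hsub
      rw [card_tau z.1 z.2 (fun h hh => (mem_Icc.1 (g1 hh)).1), g2, card_range] at h5
      exact h5
    · have h5 : ((range (N + 1)).powersetCard K).filter
          (fun S => insert z.1 (z.2.image (fun h => z.1 + h)) ⊆ S) = ∅ := by
        rw [filter_eq_empty_iff]
        intro S hS hcon
        exact hsub (hcon.trans (mem_powersetCard.1 hS).1)
      rw [h5, card_empty]
      exact Nat.zero_le _
  have h6 := Nat.choose_mul (n := N + 1) hmK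
  have h7 := Nat.add_one_mul_choose_eq N m
  have hpos : 0 < (N + 1 - (m + 1)).choose (K - (m + 1)) := Nat.choose_pos (by omega)
  obtain ⟨D, hD⟩ : ∃ D : ℕ, D = (N + 1 - (m + 1)).choose (K - (m + 1)) := ⟨_, rfl⟩
  rw [← hD] at h1 h6 hpos
  have h8 : (N + 1).choose (m + 1) * D ≤ ((N + 1) * A.card * K.choose (m + 1)) * D := by
    rw [← h6]
    calc (N + 1).choose K * K.choose (m + 1) ≤ ((N + 1) * A.card * D) * K.choose (m + 1) :=
          Nat.mul_le_mul_right _ h1
      _ = _ := by ring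
  have h9 := Nat.le_of_mul_le_mul_right h8 hpos
  have h10 : (N + 1) * N.choose m ≤ (N + 1) * ((m + 1) * K.choose (m + 1) * A.card) := by
    rw [h7]
    calc (N + 1).choose (m + 1) * (m + 1) ≤ ((N + 1) * A.card * K.choose (m + 1)) * (m + 1) :=
          Nat.mul_le_mul_right _ h9
      _ = _ := by ring
  exact Nat.le_of_mul_le_mul_left h10 (by omega)

open Classical in
/-- **Three and more primes at exact positions.** Let `E` be a set of times which is large enough
(`3560` times for `m = 2`, `290687` for `m = 3`, `log |E| ≥ 4 m + 29/50` in general). (1) For all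
`R`, `ε > 0` and all large `x` some `T ⊆ E` with at least `m + 1` elements, the least of them `t`, is
the exact pattern at `x ^ (1 - ε)` primes `p ≤ x`; (2) one such `T` serves all `R` and `ε` for
arbitrarily large `x`. (3) There are `a ∈ E` and a set `H` of `m` positions with `a + H ⊆ E` which
are, often, the positions of the first `m` primes after the prime `p` in its sequence. (4) This holds
for a positive proportion of all sets `H` of `m` positions: for at least `1 / ((m + 1) * (K choose (m + 1)))`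
of the subsets of `{1, ..., N}` with `m` elements, if `K` is large enough for `m` and `K ≤ N + 1`. -/
theorem result :
    (∀ (m : ℕ) (E : Finset ℕ), Enough m E.card →
      (∀ R : ℕ, ∀ ε : ℝ, 0 < ε → ∀ᶠ x : ℝ in atTop, ∃ T ⊆ E, m + 1 ≤ T.card ∧ ∃ t ∈ T,
        (∀ e ∈ T, t ≤ e) ∧ x ^ (1 - ε) ≤ (count t T R x : ℝ)) ∧
      (∃ T ⊆ E, m + 1 ≤ T.card ∧ ∃ t ∈ T, (∀ e ∈ T, t ≤ e) ∧ ∀ R : ℕ, ∀ ε : ℝ, 0 < ε →
        ∃ᶠ x : ℝ in atTop, x ^ (1 - ε) ≤ (count t T R x : ℝ)) ∧
      ∃ (a : ℕ) (H : Finset ℕ), a ∈ E ∧ H.card = m ∧ (∀ h ∈ H, 0 < h ∧ a + h ∈ E) ∧ Next H) ∧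
    ∀ m K N : ℕ, Enough m K → K ≤ N + 1 →
      N.choose m ≤ (m + 1) * K.choose (m + 1) * (((Icc 1 N).powersetCard m).filter Next).card := by
  refine ⟨fun m E hE => ⟨fun R ε hε => every_scale m E (mhyp_enough hE) R ε hε,
    one_pattern m E (mhyp_enough hE), next_of m E (mhyp_enough hE)⟩, fun m K N hK hN => ?_⟩
  refine average Next m K N hN fun E hE => next_of m E ?_
  rw [hE]
  exact mhyp_enough hK

end Pool.Agent.Results.MP_77cbc6_nt.ThreeExactPositions
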